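import Pool.Agent.Helper6.SW.Defs

/-! BV-4: type II sums from the bilinear estimate. -/

set_option autoImplicit false

namespace Pool.Agent.Helper95.SW

open Finset DirichletCharacter Pool.Agent.Helper6.ER Pool.Agent.Helper6.SW

/-- the part of the interval with `Nat.log 2 a = i` -/
private def bx (U N i : ℕ) : Finset ℕ := (Ioc U N).filter (fun a => Nat.log 2 a = i)

private theorem bx_lt {U N i a : ℕ} (h : a ∈ bx U N i) : 1 ≤ a ∧ 2 ^ i ≤ a ∧ a < 2 ^ (i + 1) := by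
  unfold bx at h
  rw [mem_filter, mem_Ioc] at h
  obtain ⟨⟨h1, h2⟩, h3⟩ := h
  have h0 : a ≠ 0 := by omega
  refine ⟨by omega, ?_, ?_⟩
  · rw [← h3]; exact Nat.pow_log_le_self 2 h0
  · rw [← h3]; exact Nat.lt_pow_succ_log_self (by norm_num) a

private theorem bx_sum {U N i : ℕ} {γ : ℕ → ℂ} {B : ℝ}
    (hγ : ∀ a ∈ bx U N i, ‖γ a‖ ≤ B / a) (hB : 0 ≤ B) :
    ((2 ^ (i + 1) : ℕ) : ℝ) * ∑ a ∈ bx U N i, ‖γ a‖ ^ 2 ≤ 2 * B ^ 2 := by
  have h1 : ∑ a ∈ bx U N i, ‖γ a‖ ^ 2 ≤ ∑ _a ∈ bx U N i, (B / 2 ^ i) ^ 2 := by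
    refine sum_le_sum fun a ha => ?_
    obtain ⟨h1, h2, h3⟩ := bx_lt ha
    have h4 : ((2 : ℝ) ^ i) ≤ a := by exact_mod_cast h2
    have h5 : ‖γ a‖ ≤ B / 2 ^ i := (hγ a ha).trans (by gcongr)
    gcongr
  have h2 : ((bx U N i).card : ℝ) ≤ 2 ^ i := by
    have h3 : bx U N i ⊆ Ico (2 ^ i) (2 ^ (i + 1)) := by
      intro a ha
      obtain ⟨h1, h2, h3⟩ := bx_lt ha
      rw [mem_Ico]; exact ⟨h2, h3⟩
    have h4 := card_le_card h3
    rw [Nat.card_Ico] at h4
    have h5 : 2 ^ (i + 1) - 2 ^ i = 2 ^ i := by rw [pow_succ]; omega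
    rw [h5] at h4
    exact_mod_cast h4
  rw [sum_const, nsmul_eq_mul] at h1
  calc ((2 ^ (i + 1) : ℕ) : ℝ) * ∑ a ∈ bx U N i, ‖γ a‖ ^ 2
      ≤ ((2 ^ (i + 1) : ℕ) : ℝ) * (2 ^ i * (B / 2 ^ i) ^ 2) := by
        gcongr
        exact h1.trans (by gcongr)
    _ = 2 * B ^ 2 := by
        push_cast
        field_simp
        ring

/-- weighted sum over primitive characters -/
private noncomputable def Av (F : ℕ) (g : (f : ℕ) → DirichletCharacter ℂ f → ℝ) : ℝ :=
  ∑ f ∈ Icc 1 F, ((f : ℝ) / f.totient) * ∑ ψ ∈ prim f, g f ψ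

private theorem Av_sum {ι : Type} (F : ℕ) (s : Finset ι)
    (g : ι → (f : ℕ) → DirichletCharacter ℂ f → ℝ) :
    Av F (fun f ψ => ∑ x ∈ s, g x f ψ) = ∑ x ∈ s, Av F (g x) := by
  unfold Av
  rw [sum_comm]
  refine sum_congr rfl fun f _ => ?_
  rw [sum_comm, mul_sum]

private theorem Av_mul (F : ℕ) (c : ℝ) (g : (f : ℕ) → DirichletCharacter ℂ f → ℝ) :
    Av F (fun f ψ => c * g f ψ) = c * Av F g := by
  unfold Av
  rw [mul_sum]
  refine sum_congr rfl fun f _ => ?_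
  rw [← mul_sum]; ring

private theorem Av_mono (F : ℕ) {g g' : (f : ℕ) → DirichletCharacter ℂ f → ℝ}
    (h : ∀ f ψ, g f ψ ≤ g' f ψ) : Av F g ≤ Av F g' := by
  unfold Av
  refine sum_le_sum fun f _ => ?_
  refine mul_le_mul_of_nonneg_left (sum_le_sum fun ψ _ => h f ψ) (by positivity)

private noncomputable def al (X : ℝ) (μ : ℕ → ℝ) (h : ℕ) (a : ℕ) : ℂ :=
  ((μ a * Real.log a ^ h * (a : ℝ) ^ (-(1 + 1 / Real.log X)) : ℝ) : ℂ)

private noncomputable def TT (V X : ℝ) (μ u : ℕ → ℝ) (k U N h i j : ℕ) (f : ℕ)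
    (ψ : DirichletCharacter ℂ f) : ℂ :=
  ∑ a ∈ bx U N i, ∑ l ∈ bx U N j, al X μ h a * al X u (k - h) l * ψ (a : ZMod f) *
    ψ (l : ZMod f) * ((tent V (Real.log a + Real.log l - Real.log X) : ℝ) : ℂ)

private theorem rpow_le {X : ℝ} (hX : 0 < Real.log X) {a : ℕ} (ha : 1 ≤ a) :
    (a : ℝ) ^ (-(1 + 1 / Real.log X)) ≤ 1 / a := by
  have h1 : (1 : ℝ) ≤ a := by exact_mod_cast ha
  calc (a : ℝ) ^ (-(1 + 1 / Real.log X)) ≤ (a : ℝ) ^ (-1 : ℝ) := by
        apply Real.rpow_le_rpow_of_exponent_le h1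
        have : 0 < 1 / Real.log X := by positivity
        linarith
    _ = 1 / a := by rw [Real.rpow_neg_one, one_div]

private theorem al_le {X : ℝ} (hX : 0 < Real.log X) {U N i a : ℕ} (ha : a ∈ bx U N i)
    {μ : ℕ → ℝ} {m h : ℕ} (hμ : |μ a| ≤ Real.log a ^ m) :
    ‖al X μ h a‖ ≤ Real.log N ^ (h + m) / a := by
  obtain ⟨h1, h2, h3⟩ := bx_lt ha
  have haN : a ≤ N := by
    unfold bx at ha
    rw [mem_filter, mem_Ioc] at ha
    exact ha.1.2
  have hl0 : 0 ≤ Real.log a := Real.log_natCast_nonneg a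
  have h4 : (1 : ℝ) ≤ a := by exact_mod_cast h1
  have hl : Real.log a ≤ Real.log N := by
    apply Real.log_le_log (by linarith)
    exact_mod_cast haN
  unfold al
  rw [Complex.norm_real, Real.norm_eq_abs, abs_mul, abs_mul, abs_of_nonneg (pow_nonneg hl0 h),
    abs_of_nonneg (Real.rpow_nonneg (by linarith) _)]
  have h5 := rpow_le hX h1
  have h6 : 0 ≤ Real.log N := hl0.trans hl
  calc |μ a| * Real.log a ^ h * (a : ℝ) ^ (-(1 + 1 / Real.log X))
      ≤ Real.log a ^ m * Real.log a ^ h * (1 / a) := by gcongr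
    _ = Real.log a ^ (h + m) / a := by rw [pow_add]; ring
    _ ≤ Real.log N ^ (h + m) / a := by gcongr

private theorem TT_le (hB : StBilin) {V X : ℝ} (hV : 0 < V) (hX0 : 0 < X) (hX : 0 < Real.log X)
    {μ u : ℕ → ℝ} {k U N F h : ℕ} (hh : h ≤ k) (i j : ℕ) (hF : 1 ≤ F) (hFU : F ^ 2 ≤ U)
    (hμ : ∀ a, |μ a| ≤ 1) (hu : ∀ l, |u l| ≤ Real.log l) :
    Av F (fun f ψ => ‖TT V X μ u k U N h i j f ψ‖) ≤ 10 * Real.log N ^ (k + 1) := by
  have hlN : 0 ≤ Real.log N := Real.log_natCast_nonneg N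
  rcases (bx U N i).eq_empty_or_nonempty with hi | ⟨a0, ha0⟩
  · have : Av F (fun f ψ => ‖TT V X μ u k U N h i j f ψ‖) = 0 := by
      unfold Av TT
      simp [hi]
    rw [this]; positivity
  rcases (bx U N j).eq_empty_or_nonempty with hj | ⟨l0, hl0⟩
  · have : Av F (fun f ψ => ‖TT V X μ u k U N h i j f ψ‖) = 0 := by
      unfold Av TT
      simp [hj]
    rw [this]; positivity
  have hA : F ^ 2 ≤ 2 ^ (i + 1) := by
    have h1 := bx_lt ha0
    have h2 : U < a0 := by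
      unfold bx at ha0
      rw [mem_filter, mem_Ioc] at ha0
      exact ha0.1.1
    omega
  have hL : F ^ 2 ≤ 2 ^ (j + 1) := by
    have h1 := bx_lt hl0
    have h2 : U < l0 := by
      unfold bx at hl0
      rw [mem_filter, mem_Ioc] at hl0
      exact hl0.1.1
    omega
  have h1 := hB V X F (2 ^ (i + 1)) (2 ^ (j + 1)) (bx U N i) (bx U N j) (al X μ h)
    (al X u (k - h)) hV hX0 hF hA hL (fun a ha => ⟨(bx_lt ha).1, (bx_lt ha).2.2⟩)
    (fun a ha => ⟨(bx_lt ha).1, (bx_lt ha).2.2⟩)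
  have h2 : ((2 ^ (i + 1) : ℕ) : ℝ) * ∑ a ∈ bx U N i, ‖al X μ h a‖ ^ 2 ≤
      2 * (Real.log N ^ h) ^ 2 := by
    apply bx_sum _ (by positivity)
    intro a ha
    have := al_le (h := h) (m := 0) hX ha (μ := μ) (by simpa using hμ a)
    simpa using this
  have h3 : ((2 ^ (j + 1) : ℕ) : ℝ) * ∑ a ∈ bx U N j, ‖al X u (k - h) a‖ ^ 2 ≤
      2 * (Real.log N ^ (k - h + 1)) ^ 2 := by
    apply bx_sum _ (by positivity)
    intro a ha
    exact al_le (h := k - h) (m := 1) hX ha (μ := u) (by simpa using hu a)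
  have h4 : Av F (fun f ψ => ‖TT V X μ u k U N h i j f ψ‖) ≤
      5 * Real.sqrt (2 * (Real.log N ^ h) ^ 2) * Real.sqrt (2 * (Real.log N ^ (k - h + 1)) ^ 2) := by
    refine le_trans ?_ (h1.trans ?_)
    · exact le_rfl
    · gcongr
  have h5 : Real.sqrt (2 * (Real.log N ^ h) ^ 2) = Real.sqrt 2 * Real.log N ^ h := by
    rw [Real.sqrt_mul (by norm_num), Real.sqrt_sq (by positivity)]
  have h6 : Real.sqrt (2 * (Real.log N ^ (k - h + 1)) ^ 2) =
      Real.sqrt 2 * Real.log N ^ (k - h + 1) := by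
    rw [Real.sqrt_mul (by norm_num), Real.sqrt_sq (by positivity)]
  rw [h5, h6] at h4
  refine h4.trans (le_of_eq ?_)
  have h7 : Real.sqrt 2 * Real.sqrt 2 = 2 := Real.mul_self_sqrt (by norm_num)
  calc 5 * (Real.sqrt 2 * Real.log N ^ h) * (Real.sqrt 2 * Real.log N ^ (k - h + 1))
      = 5 * (Real.sqrt 2 * Real.sqrt 2) * Real.log N ^ (h + (k - h + 1)) := by
        rw [pow_add]; ring
    _ = 10 * Real.log N ^ (k + 1) := by
        rw [h7, show h + (k - h + 1) = k + 1 by omega]; norm_num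

/-- the tent vanishes beyond `NX` -/
private theorem om_zero {V X : ℝ} (hV : 0 < V) (hX : 0 < X) {k n : ℕ} (hn : NX V X < n) :
    om V k X n = 0 := by
  have h1 : Real.exp V * X < n := by
    unfold NX at hn
    exact Nat.lt_of_floor_lt hn
  have h2 : V + Real.log X < Real.log n := by
    have h3 : Real.log (Real.exp V * X) = V + Real.log X := by
      rw [Real.log_mul (Real.exp_pos V).ne' hX.ne', Real.log_exp]
    rw [← h3]
    exact Real.log_lt_log (by positivity) h1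
  unfold om tent
  have h4 : max 0 (1 - |Real.log n - Real.log X| / V) = 0 := by
    apply max_eq_left
    rw [sub_nonpos, le_div_iff₀ hV, one_mul, abs_of_nonneg (by linarith)]
    linarith
  rw [h4, mul_zero]

private theorem expand {V X : ℝ} (hV : 0 < V) (hX : 0 < X) (μ u : ℕ → ℝ) (k U : ℕ) (f : ℕ)
    (ψ : DirichletCharacter ℂ f) :
    ∑ a ∈ Ioc U (NX V X), ∑ l ∈ Ioc U (NX V X / a), ((μ a : ℝ) : ℂ) * ((u l : ℝ) : ℂ) *
        (ψ ((a * l : ℕ) : ZMod f) * ((om V k X (a * l) : ℝ) : ℂ)) =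
      ∑ i ∈ range (Nat.log 2 (NX V X) + 1), ∑ j ∈ range (Nat.log 2 (NX V X) + 1),
        ∑ h ∈ range (k + 1), ((k.choose h : ℝ) : ℂ) * TT V X μ u k U (NX V X) h i j f ψ := by
  set N := NX V X with hN
  have h1 : ∀ a ∈ Ioc U N, ∑ l ∈ Ioc U (N / a), ((μ a : ℝ) : ℂ) * ((u l : ℝ) : ℂ) *
        (ψ ((a * l : ℕ) : ZMod f) * ((om V k X (a * l) : ℝ) : ℂ)) =
      ∑ l ∈ Ioc U N, ((μ a : ℝ) : ℂ) * ((u l : ℝ) : ℂ) *
        (ψ ((a * l : ℕ) : ZMod f) * ((om V k X (a * l) : ℝ) : ℂ)) := by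
    intro a ha
    rw [mem_Ioc] at ha
    apply sum_subset
    · intro l hl
      rw [mem_Ioc] at hl ⊢
      exact ⟨hl.1, hl.2.trans (Nat.div_le_self _ _)⟩
    · intro l hl hl2
      rw [mem_Ioc] at hl hl2
      have h2 : N / a < l := by
        by_contra hc; exact hl2 ⟨hl.1, not_lt.1 hc⟩
      have h3 : N < a * l := by
        rw [Nat.div_lt_iff_lt_mul (by omega)] at h2
        rw [mul_comm]; exact h2
      rw [om_zero hV hX h3]
      simp
  rw [sum_congr rfl h1]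
  have hfib : ∀ g : ℕ → ℂ, ∑ a ∈ Ioc U N, g a =
      ∑ i ∈ range (Nat.log 2 N + 1), ∑ a ∈ bx U N i, g a := by
    intro g
    unfold bx
    refine (sum_fiberwise_of_maps_to (fun a ha => ?_) g).symm
    rw [mem_Ioc] at ha
    rw [mem_range]
    have := Nat.log_mono_right (b := 2) ha.2
    omega
  rw [hfib]
  refine sum_congr rfl fun i _ => ?_
  rw [sum_congr rfl fun a _ => hfib _]
  rw [sum_comm]
  refine sum_congr rfl fun j _ => ?_
  unfold TT
  simp only [mul_sum]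
  symm
  rw [sum_comm]
  refine sum_congr rfl fun a ha => ?_
  rw [sum_comm]
  refine sum_congr rfl fun l hl => ?_
  symm
  have ha1 := (bx_lt ha).1
  have hl1 := (bx_lt hl).1
  have ha2 : (0 : ℝ) < a := by exact_mod_cast ha1
  have hl2 : (0 : ℝ) < l := by exact_mod_cast hl1
  have e1 : om V k X (a * l) = (∑ h ∈ range (k + 1), Real.log a ^ h * Real.log l ^ (k - h) *
      (k.choose h : ℝ)) * ((a : ℝ) ^ (-(1 + 1 / Real.log X)) * (l : ℝ) ^ (-(1 + 1 / Real.log X))) *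
      tent V (Real.log a + Real.log l - Real.log X) := by
    unfold om
    push_cast
    rw [Real.log_mul ha2.ne' hl2.ne', ← add_pow, Real.mul_rpow ha2.le hl2.le]
  rw [e1, Nat.cast_mul, map_mul]
  push_cast
  rw [sum_mul, sum_mul, mul_sum, mul_sum]
  refine sum_congr rfl fun h _ => ?_
  unfold al
  push_cast
  ring

theorem stTypeII_of (hB : StBilin) : StTypeII := by
  intro V k hV
  refine ⟨720 * 4 ^ k, max (Real.exp V) (Real.exp 1), by positivity, ?_⟩
  intro X hX U F μ u hF hFU hU hμ hu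
  have hX1 : Real.exp V ≤ X := (le_max_left _ _).trans hX
  have hX2 : Real.exp 1 ≤ X := (le_max_right _ _).trans hX
  have hX0 : 0 < X := (Real.exp_pos 1).trans_le hX2
  have hlV : V ≤ Real.log X := by
    rw [← Real.log_exp V]; exact Real.log_le_log (Real.exp_pos V) hX1
  have hl1 : 1 ≤ Real.log X := by
    rw [← Real.log_exp 1]; exact Real.log_le_log (Real.exp_pos 1) hX2
  have hl0 : 0 < Real.log X := by linarith
  have hXge : 1 ≤ X := by
    have := Real.add_one_le_exp (1 : ℝ)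
    linarith
  have hEX : 1 ≤ Real.exp V * X := by
    have := Real.one_le_exp hV.le
    nlinarith
  have hN : 1 ≤ NX V X := by
    unfold NX
    exact Nat.floor_pos.2 hEX
  have hNr : (1 : ℝ) ≤ (NX V X : ℝ) := by exact_mod_cast hN
  have hlN : Real.log (NX V X) ≤ 2 * Real.log X := by
    have h1 : (NX V X : ℝ) ≤ Real.exp V * X := by
      unfold NX; exact Nat.floor_le (by positivity)
    have h2 : Real.log (NX V X) ≤ Real.log (Real.exp V * X) :=
      Real.log_le_log (by linarith) h1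
    rw [Real.log_mul (Real.exp_pos V).ne' hX0.ne', Real.log_exp] at h2
    linarith
  have hlN0 : 0 ≤ Real.log (NX V X) := Real.log_nonneg hNr
  have hM : ((Nat.log 2 (NX V X) + 1 : ℕ) : ℝ) ≤ 6 * Real.log X := by
    have h1 : 2 ^ Nat.log 2 (NX V X) ≤ NX V X := Nat.pow_log_le_self 2 (by omega)
    have h2 : ((2 : ℝ) ^ Nat.log 2 (NX V X)) ≤ NX V X := by exact_mod_cast h1
    have h3 := Real.log_le_log (by positivity) h2
    rw [Real.log_pow] at h3
    have h4 := Real.log_two_gt_d9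
    have h5 : (0 : ℝ) ≤ Nat.log 2 (NX V X) := by positivity
    push_cast
    nlinarith
  have hmain : Av F (fun f ψ => ‖∑ a ∈ Ioc U (NX V X), ∑ l ∈ Ioc U (NX V X / a),
        ((μ a : ℝ) : ℂ) * ((u l : ℝ) : ℂ) *
        (ψ ((a * l : ℕ) : ZMod f) * ((om V k X (a * l) : ℝ) : ℂ))‖) ≤
      ∑ _i ∈ range (Nat.log 2 (NX V X) + 1), ∑ _j ∈ range (Nat.log 2 (NX V X) + 1),
        ∑ h ∈ range (k + 1), (k.choose h : ℝ) * (10 * Real.log (NX V X) ^ (k + 1)) := by
    have h1 : ∀ (f : ℕ) (ψ : DirichletCharacter ℂ f),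
        ‖∑ a ∈ Ioc U (NX V X), ∑ l ∈ Ioc U (NX V X / a), ((μ a : ℝ) : ℂ) * ((u l : ℝ) : ℂ) *
          (ψ ((a * l : ℕ) : ZMod f) * ((om V k X (a * l) : ℝ) : ℂ))‖ ≤
        ∑ i ∈ range (Nat.log 2 (NX V X) + 1), ∑ j ∈ range (Nat.log 2 (NX V X) + 1),
          ∑ h ∈ range (k + 1), (k.choose h : ℝ) * ‖TT V X μ u k U (NX V X) h i j f ψ‖ := by
      intro f ψ
      rw [expand hV hX0]
      refine (norm_sum_le _ _).trans (sum_le_sum fun i _ => ?_)
      refine (norm_sum_le _ _).trans (sum_le_sum fun j _ => ?_)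
      refine (norm_sum_le _ _).trans (sum_le_sum fun h _ => ?_)
      rw [norm_mul, Complex.norm_real, Real.norm_eq_abs, abs_of_nonneg (by positivity)]
    refine (Av_mono F h1).trans ?_
    rw [Av_sum]
    refine sum_le_sum fun i _ => ?_
    rw [Av_sum]
    refine sum_le_sum fun j _ => ?_
    rw [Av_sum]
    refine sum_le_sum fun h hh => ?_
    rw [Av_mul]
    rw [mem_range] at hh
    exact mul_le_mul_of_nonneg_left
      (TT_le hB hV hX0 hl0 (by omega) i j hF hFU hμ hu) (by positivity)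
  refine le_trans (le_of_eq rfl) (hmain.trans ?_)
  have hch : ∑ h ∈ range (k + 1), (k.choose h : ℝ) = 2 ^ k := by
    have := Nat.sum_range_choose k
    exact_mod_cast this
  rw [← sum_mul, hch, sum_const, sum_const, card_range, nsmul_eq_mul, nsmul_eq_mul]
  calc ((Nat.log 2 (NX V X) + 1 : ℕ) : ℝ) * (((Nat.log 2 (NX V X) + 1 : ℕ) : ℝ) *
        (2 ^ k * (10 * Real.log (NX V X) ^ (k + 1))))
      ≤ (6 * Real.log X) * ((6 * Real.log X) * (2 ^ k * (10 * (2 * Real.log X) ^ (k + 1)))) := by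
        gcongr
    _ = 720 * 4 ^ k * Real.log X ^ (k + 3) := by
        rw [mul_pow, show (4 : ℝ) = 2 * 2 by norm_num, mul_pow]; ring
    _ ≤ 720 * 4 ^ k * Real.log X ^ (k + 4) := by
        apply mul_le_mul_of_nonneg_left _ (by positivity)
        exact pow_le_pow_right₀ hl1 (by omega)

end Pool.Agent.Helper95.SW
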